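import Mathlib

/-!
# MP_b5825f_co : jump-critical posets of arbitrary length

The ordinal sum of `k` two-element antichains is jump-critical with jump number `k` and contains a
chain with `k` elements.
-/

namespace Pool.Agent.Results.MP_b5825f_co.LongCritical

/-- A linear extension, as the list of all elements: no element is above a later one. -/
def IsLinExt {P : Type} [PartialOrder P] (L : List P) : Prop :=
  L.Nodup ∧ (∀ x, x ∈ L) ∧ L.Pairwise (fun x y => ¬ y < x)

open Classical in
/-- The number of jumps: consecutive pairs `x, y` with `x ≮ y`. -/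
noncomputable def jumps {P : Type} [PartialOrder P] : List P → ℕ
  | [] => 0
  | [_] => 0
  | (x :: y :: l) => (if x < y then 0 else 1) + jumps (y :: l)

/-- The jump number: the smallest number of jumps of a linear extension. -/
noncomputable def jumpNumber (P : Type) [PartialOrder P] : ℕ :=
  sInf {j : ℕ | ∃ L : List P, IsLinExt L ∧ jumps L = j}

/-- Jump-critical posets. -/
def JumpCritical (P : Type) [PartialOrder P] : Prop :=
  ∃ r, 1 ≤ r ∧ jumpNumber P = r ∧ ∀ x : P, jumpNumber {y : P // y ≠ x} < r

/-! ## Weak orders -/

/-- The number of consecutive equal entries. -/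
def eqs : List ℕ → ℕ
  | [] => 0
  | [_] => 0
  | (x :: y :: l) => (if x = y then 1 else 0) + eqs (y :: l)

theorem eqs_add (l : List ℕ) (h : l.Pairwise (· ≤ ·)) : eqs l + l.toFinset.card = l.length := by
  induction l with
  | nil => rfl
  | cons x l ih =>
    cases l with
    | nil => rfl
    | cons y l =>
      rw [List.pairwise_cons] at h
      have ih' := ih h.2
      have h2 := h.2
      rw [List.pairwise_cons] at h2
      unfold eqs
      by_cases hxy : x = y
      · subst hxy
        have : (x :: x :: l).toFinset = (x :: l).toFinset := by simp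
        rw [this, if_pos rfl]
        simp only [List.length_cons] at ih' ⊢
        omega
      · have hlt : x < y := lt_of_le_of_ne (h.1 y (by simp)) hxy
        have hnot : x ∉ (y :: l).toFinset := by
          rw [List.mem_toFinset]
          intro hx
          rcases List.mem_cons.1 hx with h3 | h3
          · exact hxy h3
          · have := h2.1 x h3
            omega
        have : (x :: y :: l).toFinset = insert x (y :: l).toFinset := by simp
        rw [this, Finset.card_insert_of_notMem hnot, if_neg hxy]
        simp only [List.length_cons] at ih' ⊢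
        omega

/-- In a weak order all linear extensions have the same number of jumps. -/
theorem jumps_eq {P : Type} [PartialOrder P] (r : P → ℕ) (hr : ∀ x y : P, x < y ↔ r x < r y)
    (L : List P) (hL : L.Pairwise (fun x y => ¬ y < x)) : jumps L = eqs (L.map r) := by
  induction L with
  | nil => rfl
  | cons x L ih =>
    cases L with
    | nil => rfl
    | cons y L =>
      rw [List.pairwise_cons] at hL
      have ih' := ih hL.2
      have h1 := hL.1 y (by simp)
      rw [hr] at h1
      unfold jumps
      rw [ih']
      simp only [List.map_cons]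
      rw [eqs]
      congr 1
      by_cases h : x < y
      · have h' := (hr x y).1 h
        rw [if_pos h, if_neg (by omega)]
      · have h' : ¬ r x < r y := fun h2 => h ((hr x y).2 h2)
        rw [if_neg h, if_pos (by omega)]

theorem exists_linExt {P : Type} [PartialOrder P] [Fintype P] (r : P → ℕ)
    (hr : ∀ x y : P, x < y ↔ r x < r y) : ∃ L : List P, IsLinExt L := by
  classical
  refine ⟨(Finset.univ : Finset P).toList.mergeSort (fun x y => decide (r x ≤ r y)), ?_, ?_, ?_⟩
  · exact (List.mergeSort_perm _ _).nodup_iff.2 (Finset.nodup_toList _)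
  · intro x
    rw [List.mem_mergeSort, Finset.mem_toList]
    exact Finset.mem_univ x
  · have h := List.pairwise_mergeSort (le := fun x y => decide (r x ≤ r y))
      (fun a b c h1 h2 => by simp at *; omega) (fun a b => by simp; omega)
      (Finset.univ : Finset P).toList
    refine h.imp ?_
    intro a b hab hba
    rw [hr] at hba
    simp at hab
    omega

/-- The jump number of a weak order. -/
theorem jumpNumber_weak {P : Type} [PartialOrder P] [Fintype P] (r : P → ℕ)
    (hr : ∀ x y : P, x < y ↔ r x < r y) :
    jumpNumber P + (Finset.univ.image r).card = Fintype.card P := by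
  classical
  have key : ∀ L : List P, IsLinExt L →
      jumps L + (Finset.univ.image r).card = Fintype.card P := by
    intro L hL
    rw [jumps_eq r hr L hL.2.2]
    have h1 : (L.map r).Pairwise (· ≤ ·) := by
      rw [List.pairwise_map]
      refine hL.2.2.imp ?_
      intro a b hab
      rw [hr] at hab
      omega
    have h2 := eqs_add (L.map r) h1
    have h3 : (L.map r).toFinset = Finset.univ.image r := by
      ext t
      simp only [List.mem_toFinset, List.mem_map, Finset.mem_image, Finset.mem_univ, true_and]
      constructor
      · rintro ⟨x, _, rfl⟩; exact ⟨x, rfl⟩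
      · rintro ⟨x, rfl⟩; exact ⟨x, hL.2.1 x, rfl⟩
    have h4 : (L.map r).length = Fintype.card P := by
      rw [List.length_map, ← List.toFinset_card_of_nodup hL.1, ← Finset.card_univ]
      congr 1
      ext x
      simp [hL.2.1 x]
    rw [h3, h4] at h2
    exact h2
  obtain ⟨L, hL⟩ := exists_linExt r hr
  have hset : {j : ℕ | ∃ L : List P, IsLinExt L ∧ jumps L = j} = {jumps L} := by
    ext j
    simp only [Set.mem_ofPred_eq, Set.mem_singleton_iff]
    constructor
    · rintro ⟨M, hM, rfl⟩
      have e1 := key M hM
      have e2 := key L hL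
      omega
    · rintro rfl
      exact ⟨L, hL, rfl⟩
  unfold jumpNumber
  rw [hset, csInf_singleton]
  exact key L hL

/-! ## The ordinal sum of `k` two-element antichains -/

/-- The elements `(i, a)` with `i < k` and `a` one of two values. -/
structure T (k : ℕ) where
  lev : Fin k
  side : Bool
  deriving DecidableEq, Fintype

/-- `(i, a) < (j, b)` iff `i < j`. -/
instance (k : ℕ) : PartialOrder (T k) where
  le x y := x = y ∨ x.lev < y.lev
  lt x y := x.lev < y.lev
  le_refl x := Or.inl rfl
  le_trans x y z := by
    rintro (rfl | h1) (rfl | h2)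
    · exact Or.inl rfl
    · exact Or.inr h2
    · exact Or.inr h1
    · exact Or.inr (h1.trans h2)
  lt_iff_le_not_ge x y := by
    constructor
    · intro h
      refine ⟨Or.inr h, ?_⟩
      rintro (rfl | h2)
      · exact lt_irrefl _ h
      · exact lt_asymm h h2
    · rintro ⟨h1 | h1, h2⟩
      · exact absurd (Or.inl h1.symm) h2
      · exact h1
  le_antisymm x y := by
    rintro (rfl | h1) h
    · rfl
    · rcases h with h | h
      · exact h.symm
      · exact absurd (h1.trans h) (lt_irrefl _)

theorem T_lt {k : ℕ} (x y : T k) : x < y ↔ (x.lev : ℕ) < (y.lev : ℕ) := Iff.rfl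

theorem card_T (k : ℕ) : Fintype.card (T k) = 2 * k := by
  have e : T k ≃ Fin k × Bool :=
    ⟨fun x => (x.lev, x.side), fun p => ⟨p.1, p.2⟩, fun _ => rfl, fun _ => rfl⟩
  rw [Fintype.card_congr e, Fintype.card_prod, Fintype.card_fin, Fintype.card_bool]
  ring

theorem image_lev (k : ℕ) :
    (Finset.univ.image (fun x : T k => (x.lev : ℕ))) = Finset.range k := by
  ext t
  simp only [Finset.mem_image, Finset.mem_univ, true_and, Finset.mem_range]
  constructor
  · rintro ⟨x, rfl⟩; exact x.lev.2
  · intro h; exact ⟨⟨⟨t, h⟩, true⟩, rfl⟩

theorem image_lev_del (k : ℕ) (x : T k) :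
    (Finset.univ.image (fun y : {y : T k // y ≠ x} => (y.1.lev : ℕ))) = Finset.range k := by
  ext t
  simp only [Finset.mem_image, Finset.mem_univ, true_and, Finset.mem_range]
  constructor
  · rintro ⟨y, rfl⟩; exact y.1.lev.2
  · intro h
    refine ⟨⟨⟨⟨t, h⟩, !x.side⟩, ?_⟩, rfl⟩
    intro hx
    have := congrArg T.side hx
    simp at this

theorem jumpNumber_T (k : ℕ) : jumpNumber (T k) = k := by
  have h := jumpNumber_weak (fun x : T k => (x.lev : ℕ)) (fun x y => T_lt x y)
  rw [image_lev, card_T, Finset.card_range] at h
  omega

theorem jumpNumber_T_del (k : ℕ) (x : T k) : jumpNumber {y : T k // y ≠ x} = k - 1 := by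
  have h := jumpNumber_weak (fun y : {y : T k // y ≠ x} => (y.1.lev : ℕ))
    (fun a b => T_lt a.1 b.1)
  rw [image_lev_del, Finset.card_range] at h
  have hc : Fintype.card {y : T k // y ≠ x} = 2 * k - 1 := by
    rw [← card_T k, Fintype.card_subtype, Finset.filter_ne', Finset.card_erase_of_mem
      (Finset.mem_univ x), Finset.card_univ]
  rw [hc] at h
  have hk : 0 < k := lt_of_le_of_lt (Nat.zero_le _) x.lev.2
  omega

/-- **MP_b5825f_co (Q1), negative answer.**  For every `k ≥ 1` there is a jump-critical poset with
jump number `k`, with `2k` elements and with a chain of `k` elements.  In particular (`k = 3`)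
there is a jump-critical poset with six elements that contains a three-element chain. -/
theorem result :
    (∀ k : ℕ, 1 ≤ k → ∃ (P : Type) (_ : PartialOrder P) (_ : Fintype P),
      JumpCritical P ∧ jumpNumber P = k ∧ Fintype.card P = 2 * k ∧
      ∃ f : Fin k → P, StrictMono f) ∧
    ¬ ∀ (P : Type) [PartialOrder P] [Fintype P], JumpCritical P →
      ¬ ∃ x y z : P, x < y ∧ y < z := by
  have hcrit : ∀ k : ℕ, 1 ≤ k → JumpCritical (T k) := by
    intro k hk
    refine ⟨k, hk, jumpNumber_T k, fun x => ?_⟩
    rw [jumpNumber_T_del]
    omega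
  refine ⟨fun k hk => ⟨T k, inferInstance, inferInstance, hcrit k hk, jumpNumber_T k, card_T k,
    fun i => ⟨i, true⟩, ?_⟩, ?_⟩
  · intro i j hij
    exact hij
  · intro h
    apply h (T 3) (hcrit 3 (by norm_num))
    exact ⟨⟨0, true⟩, ⟨1, true⟩, ⟨2, true⟩, by rw [T_lt]; decide, by rw [T_lt]; decide⟩

end Pool.Agent.Results.MP_b5825f_co.LongCritical
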